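import Mathlib
import Pool.Agent.Lib.MP_fdcb14_pr.W.Defs
import Pool.Agent.Lib.MP_fdcb14_pr.W.Interfaces

/-!
# MP_fdcb14_pr: module HEAVY (many seeds in a space-time block are improbable)
-/

namespace Pool.Agent.Lib.MP_fdcb14_pr.H53

open MeasureTheory ProbabilityTheory

universe u

/-- The space-time sites used by a family of pairs of errors. -/
noncomputable def sites {G : Type} [AddCommGroup G] {q : ℕ}
    (f : Fin q → (ℕ × G) × (G × G)) (x : Fin q × Bool) : ℕ × G :=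
  ((f x.1).1.1, (f x.1).1.2 + (if x.2 then (f x.1).2.1 else (f x.1).2.2))

/-- The probability that all sites of a finite set have the error `one`. -/
theorem measure_all_one {G : Type} {Ω : Type u} [MeasurableSpace Ω] (μ : Measure Ω)
    (ξ : ℕ → G → Ω → Err) (ε : ℝ) (h : IsNoise μ ξ ε) (T : Finset (ℕ × G)) :
    μ {ω | ∀ p ∈ T, ξ p.1 p.2 ω = Err.one} = (ENNReal.ofReal ε) ^ T.card := by
  have h1 : {ω | ∀ p ∈ T, ξ p.1 p.2 ω = Err.one} =
      ⋂ p ∈ T, (fun p : ℕ × G => ξ p.1 p.2) p ⁻¹' {Err.one} := by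
    ext ω
    simp
  rw [h1, h.indep.measure_inter_preimage_eq_mul T (sets := fun _ => {Err.one})
    (fun p _ => trivial)]
  rw [← Finset.prod_const]
  refine Finset.prod_congr rfl fun p _ => ?_
  exact h.one p.1 p.2

/-- A good family of pairs of errors of one colour. -/
def Good {G : Type} [AddCommGroup G] (S : Finset G) (W : Finset (ℕ × G)) {C : ℕ}
    (c : G → Fin C) {q : ℕ} (a : Fin C) (f : Fin q → (ℕ × G) × (G × G)) : Prop :=
  (∀ i, (f i).1 ∈ W ∧ c (f i).1.2 = a ∧ (f i).2.1 ∈ S ∧ (f i).2.2 ∈ S ∧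
    (f i).2.1 ≠ (f i).2.2) ∧ Function.Injective (fun i => (f i).1)

theorem sites_inj {G : Type} [AddCommGroup G] (S : Finset G) (W : Finset (ℕ × G)) {C : ℕ}
    (c : G → Fin C)
    (hc : ∀ v v', c v = c v' → v ≠ v' → ∀ s ∈ S, ∀ s' ∈ S, v + s ≠ v' + s') {q : ℕ}
    (a : Fin C) (f : Fin q → (ℕ × G) × (G × G)) (hf : Good S W c a f) :
    Function.Injective (sites f) := by
  rintro ⟨i, b⟩ ⟨j, b'⟩ h
  simp only [sites, Prod.mk.injEq] at h
  obtain ⟨ht, hv⟩ := h
  have hmem : ∀ (i : Fin q) (b : Bool), (if b then (f i).2.1 else (f i).2.2) ∈ S := by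
    intro i b
    cases b
    · simpa using (hf.1 i).2.2.2.1
    · simpa using (hf.1 i).2.2.1
  have hij : i = j := by
    by_contra hne
    have h1 : (f i).1 ≠ (f j).1 := fun h => hne (hf.2 h)
    have h2 : (f i).1.2 ≠ (f j).1.2 := by
      intro h
      exact h1 (Prod.ext ht h)
    exact hc _ _ ((hf.1 i).2.1.trans (hf.1 j).2.1.symm) h2 _ (hmem i b) _ (hmem j b') hv
  subst hij
  have h3 := add_left_cancel hv
  have h4 := (hf.1 i).2.2.2.2
  cases b <;> cases b' <;> simp_all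

theorem sites_card {G : Type} [AddCommGroup G] [DecidableEq G] (S : Finset G)
    (W : Finset (ℕ × G)) {C : ℕ}
    (c : G → Fin C)
    (hc : ∀ v v', c v = c v' → v ≠ v' → ∀ s ∈ S, ∀ s' ∈ S, v + s ≠ v' + s') {q : ℕ}
    (a : Fin C) (f : Fin q → (ℕ × G) × (G × G)) (hf : Good S W c a f) :
    (Finset.univ.image (sites f)).card = 2 * q := by
  rw [Finset.card_image_of_injective _ (sites_inj S W c hc a f hf)]
  simp [mul_comm]

/-- Pigeonhole. -/
theorem exists_colour {G : Type} {C N q : ℕ} (c : G → Fin C) (A : Finset (ℕ × G))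
    (hN : N ≤ A.card) (hC : 1 ≤ C) (hq : C * q < N + C) :
    ∃ a : Fin C, ∃ f : Fin q → ℕ × G, Function.Injective f ∧ ∀ i, f i ∈ A ∧ c (f i).2 = a := by
  classical
  have h1 : ∃ a : Fin C, q ≤ (A.filter (fun p => c p.2 = a)).card := by
    by_contra hcon
    push Not at hcon
    have h2 : A.card = ∑ a : Fin C, (A.filter (fun p => c p.2 = a)).card := by
      exact Finset.card_eq_sum_card_fiberwise (f := fun p : ℕ × G => c p.2) (t := Finset.univ)
        (fun x _ => Finset.mem_coe.mpr (Finset.mem_univ _))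
    have h3 : ∑ a : Fin C, ((A.filter (fun p => c p.2 = a)).card + 1) ≤ ∑ _a : Fin C, q :=
      Finset.sum_le_sum fun a _ => hcon a
    rw [Finset.sum_add_distrib, ← h2] at h3
    simp at h3
    omega
  obtain ⟨a, ha⟩ := h1
  obtain ⟨B, hB, hBc⟩ := Finset.exists_subset_card_eq ha
  let e := B.equivFinOfCardEq hBc
  refine ⟨a, fun i => (e.symm i : ℕ × G), ?_, ?_⟩
  · intro i j hij
    exact e.symm.injective (Subtype.ext hij)
  · intro i
    have := hB (e.symm i).2
    rw [Finset.mem_filter] at this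
    exact this

theorem seed_pair {G : Type} [AddCommGroup G] (S : Finset G) (η : G → Err) (v : G)
    (h : Seed S η v) : ∃ s ∈ S, ∃ s' ∈ S, s ≠ s' ∧ η (v + s) = Err.one ∧
      η (v + s') = Err.one := by
  classical
  unfold Seed cnt at h
  obtain ⟨s, hs, s', hs', hne⟩ := Finset.one_lt_card.mp (by omega :
    1 < (S.filter (fun s => v + s ∈ ones η)).card)
  rw [Finset.mem_filter] at hs hs'
  exact ⟨s, hs.1, s', hs'.1, hne, hs.2, hs'.2⟩

/-- HEAVY. -/
theorem heavy (hB : BALL_S) : HEAVY_S.{u} := by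
  intro G _ ι _ S k ψ ρ C c hW hF hC hc ε hε hε2 Ω _ μ _ ξ hξ R N q L t0 u hq
  classical
  obtain ⟨hfin, hcard⟩ := hB G ι ψ hF.inj u R
  set Bf : Finset G := hfin.toFinset with hBf
  have hBfc : Bf.card ≤ (2 * R + 1) ^ Fintype.card ι := by
    rw [hBf, ← Set.ncard_eq_toFinset_card _ hfin]
    exact hcard
  set W : Finset (ℕ × G) := (Finset.Ico t0 (t0 + L)) ×ˢ Bf with hWdef
  have hWc : W.card ≤ L * (2 * R + 1) ^ Fintype.card ι := by
    rw [hWdef, Finset.card_product, Nat.card_Ico]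
    have : t0 + L - t0 = L := by omega
    rw [this]
    exact Nat.mul_le_mul_left _ hBfc
  set X : Finset ((ℕ × G) × (G × G)) := W ×ˢ (S ×ˢ S) with hX
  have hXc : X.card ≤ L * (2 * R + 1) ^ Fintype.card ι * (2 * k + 1) ^ 2 := by
    have h0 : (W ×ˢ (S ×ˢ S)).card = W.card * (S ×ˢ S).card := Finset.card_product _ _
    have h0' : (S ×ˢ S).card = (2 * k + 1) ^ 2 := by
      rw [Finset.card_product, hW.card, sq]
    rw [hX, h0, h0']
    exact Nat.mul_le_mul_right _ hWc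
  set FF : Finset (Fin q → (ℕ × G) × (G × G)) := Fintype.piFinset (fun _ => X) with hFF
  have hFFc : FF.card = X.card ^ q := by
    rw [hFF, Fintype.card_piFinset]
    simp
  -- the covering
  have hcov : {ω | ∃ A : Finset (ℕ × G), N ≤ A.card ∧ ∀ p ∈ A, t0 ≤ p.1 ∧ p.1 < t0 + L ∧
        p.2 ∈ ball ψ u R ∧ Seed S (fun v => ξ p.1 v ω) p.2} ⊆
      ⋃ a : Fin C, ⋃ f ∈ FF.filter (fun f => Good S W c a f),
        {ω | ∀ p ∈ Finset.univ.image (sites f), ξ p.1 p.2 ω = Err.one} := by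
    rintro ω ⟨A, hA, hAp⟩
    obtain ⟨a, f, hfi, hf⟩ := exists_colour c A hA hC hq
    have hs : ∀ i : Fin q, ∃ s ∈ S, ∃ s' ∈ S, s ≠ s' ∧
        ξ (f i).1 ((f i).2 + s) ω = Err.one ∧ ξ (f i).1 ((f i).2 + s') ω = Err.one := by
      intro i
      exact seed_pair S _ _ (hAp (f i) (hf i).1).2.2.2
    choose s hs s' hs' hne h1 h2 using hs
    have hWm : ∀ i, f i ∈ W := by
      intro i
      obtain ⟨h3, h4, h5, _⟩ := hAp (f i) (hf i).1
      rw [hWdef, Finset.mem_product, Finset.mem_Ico, hBf, Set.Finite.mem_toFinset]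
      exact ⟨⟨h3, h4⟩, h5⟩
    refine Set.mem_iUnion.mpr ⟨a, Set.mem_iUnion₂.mpr ⟨fun i => (f i, (s i, s' i)), ?_, ?_⟩⟩
    · rw [Finset.mem_filter, hFF, Fintype.mem_piFinset]
      refine ⟨fun i => ?_, fun i => ?_, hfi⟩
      · exact Finset.mem_product.mpr ⟨hWm i, Finset.mem_product.mpr ⟨hs i, hs' i⟩⟩
      · exact ⟨hWm i, (hf i).2, hs i, hs' i, hne i⟩
    · intro p hp
      rw [Finset.mem_image] at hp
      obtain ⟨⟨i, b⟩, _, rfl⟩ := hp
      cases b
      · simpa [sites] using h2 i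
      · simpa [sites] using h1 i
  have hbound : ∀ a : Fin C, ∀ f ∈ FF.filter (fun f => Good S W c a f),
      μ {ω | ∀ p ∈ Finset.univ.image (sites f), ξ p.1 p.2 ω = Err.one} ≤
        ENNReal.ofReal (ε ^ (2 * q)) := by
    intro a f hf
    rw [Finset.mem_filter] at hf
    rw [measure_all_one μ ξ ε hξ, sites_card S W c hc a f hf.2, ENNReal.ofReal_pow hε.le]
  calc μ {ω | ∃ A : Finset (ℕ × G), N ≤ A.card ∧ ∀ p ∈ A, t0 ≤ p.1 ∧ p.1 < t0 + L ∧
        p.2 ∈ ball ψ u R ∧ Seed S (fun v => ξ p.1 v ω) p.2}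
      ≤ μ (⋃ a : Fin C, ⋃ f ∈ FF.filter (fun f => Good S W c a f),
        {ω | ∀ p ∈ Finset.univ.image (sites f), ξ p.1 p.2 ω = Err.one}) := measure_mono hcov
    _ ≤ ∑ a : Fin C, μ (⋃ f ∈ FF.filter (fun f => Good S W c a f),
        {ω | ∀ p ∈ Finset.univ.image (sites f), ξ p.1 p.2 ω = Err.one}) :=
        measure_iUnion_fintype_le _ _
    _ ≤ ∑ a : Fin C, ∑ f ∈ FF.filter (fun f => Good S W c a f),
        μ {ω | ∀ p ∈ Finset.univ.image (sites f), ξ p.1 p.2 ω = Err.one} :=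
        Finset.sum_le_sum fun a _ => measure_biUnion_finset_le _ _
    _ ≤ ∑ a : Fin C, ∑ f ∈ FF.filter (fun f => Good S W c a f),
        ENNReal.ofReal (ε ^ (2 * q)) :=
        Finset.sum_le_sum fun a _ => Finset.sum_le_sum fun f hf => hbound a f hf
    _ ≤ ∑ a : Fin C, (FF.card : ENNReal) * ENNReal.ofReal (ε ^ (2 * q)) := by
        refine Finset.sum_le_sum fun a _ => ?_
        rw [Finset.sum_const, nsmul_eq_mul]
        gcongr
        exact Finset.filter_subset _ _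
    _ = (C : ENNReal) * ((FF.card : ENNReal) * ENNReal.ofReal (ε ^ (2 * q))) := by
        rw [Finset.sum_const, nsmul_eq_mul]
        simp
    _ = ENNReal.ofReal (C * ((X.card : ℝ) ^ q * ε ^ (2 * q))) := by
        rw [hFFc, ENNReal.ofReal_mul (by positivity), ENNReal.ofReal_mul (by positivity)]
        rw [ENNReal.ofReal_natCast, ← Nat.cast_pow, ENNReal.ofReal_natCast]
    _ ≤ ENNReal.ofReal (C * ((2 * R + 1 : ℝ) ^ (Fintype.card ι) * L * (2 * k + 1) ^ 2 *
          ε ^ 2) ^ q) := by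
        apply ENNReal.ofReal_le_ofReal
        have h1 : (X.card : ℝ) ≤ L * (2 * R + 1 : ℝ) ^ Fintype.card ι * (2 * k + 1) ^ 2 := by
          exact_mod_cast hXc
        have h2 : (X.card : ℝ) * ε ^ 2 ≤
            (2 * R + 1 : ℝ) ^ (Fintype.card ι) * L * (2 * k + 1) ^ 2 * ε ^ 2 := by
          calc (X.card : ℝ) * ε ^ 2
              ≤ (L * (2 * R + 1 : ℝ) ^ Fintype.card ι * (2 * k + 1) ^ 2) * ε ^ 2 := by gcongr
            _ = _ := by ring
        rw [pow_mul, ← mul_pow]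
        exact mul_le_mul_of_nonneg_left (pow_le_pow_left₀ (by positivity) h2 q)
          (Nat.cast_nonneg C)

end Pool.Agent.Lib.MP_fdcb14_pr.H53
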